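import Pool.Agent.Work.MP_2738db_nt_C.Interface

/-!
The final form of COPRIME EXPONENTS: one exceptional set for all solutions.
-/

set_option autoImplicit false

namespace Pool.Agent.Work.MP_2738db_nt_C.helper16

open Pool.Agent.Work.MP_2738db_nt_C (Stmt_CC)

theorem form (h : Stmt_CC) :
    ∃ (E : Set ℕ) (C δ : ℝ), 0 < δ ∧
      (∀ N : ℕ, 2 ≤ N → ((E ∩ Set.Icc 1 N).ncard : ℝ) ≤ C * N / Real.log N ^ δ) ∧
      ∀ a b c m n k : ℕ, 1 ≤ a → 1 ≤ b → 1 ≤ c → 1 ≤ m → 1 ≤ n → 1 ≤ k → Nat.Coprime a b →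
        a ^ m + b ^ n = c ^ k →
        (c ∉ E → Nat.Coprime m n) ∧ (a ∉ E → Nat.Coprime n k ∨ n = 2 ∧ k = 2) ∧
          (b ∉ E → Nat.Coprime m k ∨ m = 2 ∧ k = 2) := by
  obtain ⟨C, δ, hδ, hC⟩ := h
  refine ⟨{c : ℕ | ∃ a b m n k : ℕ, 1 ≤ a ∧ 1 ≤ b ∧ Nat.Coprime a b ∧ 1 ≤ m ∧
      1 ≤ n ∧ 1 ≤ k ∧ 2 ≤ Nat.gcd m n ∧
      (a ^ m + b ^ n = c ^ k ∨ b ^ n + c ^ k = a ^ m ∧ ¬ (m = 2 ∧ n = 2))}, C, δ, hδ, ?_, ?_⟩
  · intro N hN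
    have h1 := hC N hN
    have h2 : ({c : ℕ | ∃ a b m n k : ℕ, 1 ≤ a ∧ 1 ≤ b ∧ Nat.Coprime a b ∧ 1 ≤ m ∧
      1 ≤ n ∧ 1 ≤ k ∧ 2 ≤ Nat.gcd m n ∧
      (a ^ m + b ^ n = c ^ k ∨ b ^ n + c ^ k = a ^ m ∧ ¬ (m = 2 ∧ n = 2))} ∩ Set.Icc 1 N) =
      {c : ℕ | 1 ≤ c ∧ c ≤ N ∧ ∃ a b m n k : ℕ, 1 ≤ a ∧ 1 ≤ b ∧ Nat.Coprime a b ∧ 1 ≤ m ∧
      1 ≤ n ∧ 1 ≤ k ∧ 2 ≤ Nat.gcd m n ∧
      (a ^ m + b ^ n = c ^ k ∨ b ^ n + c ^ k = a ^ m ∧ ¬ (m = 2 ∧ n = 2))} := by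
      ext c
      simp only [Set.mem_inter_iff, Set.mem_setOf_eq, Set.mem_Icc]
      exact ⟨fun hh => ⟨hh.2.1, hh.2.2, hh.1⟩, fun hh => ⟨hh.2.2, hh.1, hh.2.1⟩⟩
    rw [h2]
    exact h1
  · intro a b c m n k ha hb hc hm hn hk hab heq
    have gcd2 : ∀ x y : ℕ, 1 ≤ x → ¬ Nat.Coprime x y → 2 ≤ Nat.gcd x y := by
      intro x y hx hxy
      have h1 : 0 < Nat.gcd x y := Nat.gcd_pos_of_pos_left _ hx
      have h2 : Nat.gcd x y ≠ 1 := hxy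
      omega
    -- `b` and `c` are coprime, `a` and `c` are coprime
    have hcb : Nat.Coprime c b := by
      have h1 : Nat.Coprime (c ^ k) (b ^ n) := by
        rw [← heq]
        have h2 : Nat.Coprime (a ^ m) (b ^ n) := Nat.Coprime.pow _ _ hab
        rwa [Nat.coprime_add_self_left]
      exact Nat.Coprime.coprime_dvd_left (dvd_pow_self c (by omega))
        (Nat.Coprime.coprime_dvd_right (dvd_pow_self b (by omega)) h1)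
    have hca : Nat.Coprime c a := by
      have h1 : Nat.Coprime (c ^ k) (a ^ m) := by
        rw [← heq]
        have h2 : Nat.Coprime (b ^ n) (a ^ m) := (Nat.Coprime.pow _ _ hab).symm
        rwa [Nat.coprime_self_add_left]
      exact Nat.Coprime.coprime_dvd_left (dvd_pow_self c (by omega))
        (Nat.Coprime.coprime_dvd_right (dvd_pow_self a (by omega)) h1)
    refine ⟨?_, ?_, ?_⟩
    · intro hE
      by_contra hg
      exact hE ⟨a, b, m, n, k, ha, hb, hab, hm, hn, hk, gcd2 m n hm hg, Or.inl heq⟩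
    · intro hE
      by_contra hcon
      rw [not_or] at hcon
      obtain ⟨hg, h22⟩ := hcon
      apply hE
      refine ⟨c, b, k, n, m, hc, hb, hcb, hk, hn, hm, ?_, Or.inr ⟨?_, fun h => h22 ⟨h.2, h.1⟩⟩⟩
      · rw [Nat.gcd_comm]; exact gcd2 n k hn hg
      · rw [add_comm]; exact heq
    · intro hE
      by_contra hcon
      rw [not_or] at hcon
      obtain ⟨hg, h22⟩ := hcon
      apply hE
      refine ⟨c, a, k, m, n, hc, ha, hca, hk, hm, hn, ?_, Or.inr ⟨heq, fun h => h22 ⟨h.2, h.1⟩⟩⟩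
      rw [Nat.gcd_comm]; exact gcd2 m k hm hg

end Pool.Agent.Work.MP_2738db_nt_C.helper16
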