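import Pool.Agent.Work.MP_2738db_nt_Y.Interface

/-!
Two levels of the tower over a prime `r` dividing `v - w`, for `v ^ k - w ^ k = 2 z ^ l`.
-/

set_option autoImplicit false

namespace Pool.Agent.Work.MP_2738db_nt_C.helper16

open Finset

lemma geom_mod (x y : ℤ) (r : ℕ) : (x - y) ∣ (∑ i ∈ range r, x ^ i * y ^ (r - 1 - i)) -
    r * y ^ (r - 1) := by
  have h : (r : ℤ) * y ^ (r - 1) = ∑ i ∈ range r, y ^ i * y ^ (r - 1 - i) := by
    have : ∀ i ∈ range r, y ^ i * y ^ (r - 1 - i) = y ^ (r - 1) := by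
      intro i hi
      rw [Finset.mem_range] at hi
      rw [← pow_add]; congr 1; omega
    rw [Finset.sum_congr rfl this, Finset.sum_const, Finset.card_range, nsmul_eq_mul]
  rw [h, ← Finset.sum_sub_distrib]
  apply Finset.dvd_sum
  intro i _
  rw [← sub_mul]
  exact Dvd.dvd.mul_right (sub_dvd_pow_sub_pow x y i) _

/-- one level -/
lemma one_level {r : ℕ} (hr : r.Prime) (hr3 : 3 ≤ r) {x y : ℤ} (hcop : IsCoprime x y)
    (hy : Odd y) (hxy2 : (2 : ℤ) ∣ x - y) (hrd : (r : ℤ) ∣ x - y) :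
    ∃ P : ℤ, (x - y) * (r * P) = x ^ r - y ^ r ∧ IsCoprime (x - y) P ∧ ¬ (r : ℤ) ∣ P ∧ Odd P := by
  have hrp : Prime (r : ℤ) := Nat.prime_iff_prime_int.mp hr
  have hrodd : Odd r := hr.odd_of_ne_two (by omega)
  have hry : ¬ (r : ℤ) ∣ y := by
    intro h
    have hx : (r : ℤ) ∣ x := by
      have := dvd_add hrd h
      rwa [sub_add_cancel] at this
    exact hrp.not_isUnit (hcop.isUnit_of_dvd' hx h)
  have hrx : ¬ (r : ℤ) ∣ x := by
    intro h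
    apply hry
    have := dvd_sub h hrd
    rwa [sub_sub_cancel] at this
  set G : ℤ := ∑ i ∈ range r, x ^ i * y ^ (r - 1 - i) with hG
  obtain ⟨P, hP⟩ : (r : ℤ) ∣ G := dvd_geom_sum₂_self hrd
  have hmul : G * (x - y) = x ^ r - y ^ r := by
    have := geom_sum₂_mul x y r
    rw [← this, hG]
  have hem := emultiplicity_geom_sum₂_eq_one hrp hrodd hrd hrx
  have hrP : ¬ (r : ℤ) ∣ P := by
    rintro ⟨Q, hQ⟩
    have h2 : (r : ℤ) ^ 2 ∣ G := ⟨Q, by rw [hP, hQ]; ring⟩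
    have h3 := le_emultiplicity_of_pow_dvd h2
    rw [hG, hem] at h3
    norm_num at h3
  obtain ⟨h, hh⟩ := geom_mod x y r
  rw [← hG] at hh
  have hG' : G = r * y ^ (r - 1) + (x - y) * h := by linarith
  refine ⟨P, by rw [← hmul, hP]; ring, ?_, hrP, ?_⟩
  · rw [Int.isCoprime_iff_gcd_eq_one]
    by_contra hne
    obtain ⟨s, hs, hsd⟩ := Nat.exists_prime_and_dvd hne
    have hsp : Prime (s : ℤ) := Nat.prime_iff_prime_int.mp hs
    have hs1 : (s : ℤ) ∣ x - y := (Int.natCast_dvd_natCast.mpr hsd).trans (Int.gcd_dvd_left _ _)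
    have hs2 : (s : ℤ) ∣ P := (Int.natCast_dvd_natCast.mpr hsd).trans (Int.gcd_dvd_right _ _)
    have hs3 : (s : ℤ) ∣ r * y ^ (r - 1) := by
      have h1 : (s : ℤ) ∣ G := by rw [hP]; exact Dvd.dvd.mul_left hs2 _
      have h2 : (s : ℤ) ∣ G - (x - y) * h := dvd_sub h1 (Dvd.dvd.mul_right hs1 _)
      rw [hG'] at h2
      rwa [add_sub_cancel_right] at h2
    rcases hsp.dvd_or_dvd hs3 with h4 | h4
    · have h5 : s = r := (Nat.prime_dvd_prime_iff_eq hs hr).mp (Int.natCast_dvd_natCast.mp h4)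
      rw [h5] at hs2
      exact hrP hs2
    · have h5 : (s : ℤ) ∣ y := hsp.dvd_of_dvd_pow h4
      have h6 : (s : ℤ) ∣ x := by
        have := dvd_add hs1 h5
        rwa [sub_add_cancel] at this
      exact hsp.not_isUnit (hcop.isUnit_of_dvd' h6 h5)
  · have h1 : Odd G := by
      rw [hG']
      obtain ⟨j, hj⟩ := hxy2
      rw [hj]
      have h2 : Odd ((r : ℤ) * y ^ (r - 1)) := by
        apply Odd.mul _ hy.pow
        exact_mod_cast hrodd
      have h3 : Even (2 * j * h) := ⟨j * h, by ring⟩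
      exact h2.add_even h3
    rw [hP] at h1
    exact (Int.odd_mul.mp h1).2

lemma pow_of_coprime {a b : ℤ} {z l : ℕ} (hcop : IsCoprime a b) (hb : 0 < b)
    (h : a * b = (z : ℤ) ^ l) : ∃ w : ℕ, b = (w : ℤ) ^ l := by
  have h1 : b.natAbs * a.natAbs = z ^ l := by
    rw [mul_comm, ← Int.natAbs_mul, h, Int.natAbs_pow, Int.natAbs_natCast]
  have h2 : Nat.Coprime b.natAbs a.natAbs := by
    rw [Nat.coprime_comm]
    exact Int.isCoprime_iff_gcd_eq_one.mp hcop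
  obtain ⟨w, hw⟩ := exists_eq_pow_of_mul_eq_pow
    (Nat.isUnit_iff.mpr (by rw [gcd_eq_nat_gcd]; exact h2)) h1
  refine ⟨w, ?_⟩
  have h3 : (b.natAbs : ℤ) = b := Int.natAbs_of_nonneg hb.le
  rw [← h3, hw]
  push_cast
  rfl

/-- the two levels -/
lemma two_levels {r l z : ℕ} {A B : ℤ} (hr : r.Prime) (hr3 : 3 ≤ r) (hA : 0 < A)
    (hAB : |B| < A) (hcop : IsCoprime A B) (hoA : Odd A) (hoB : Odd B) (hrd : (r : ℤ) ∣ A - B)
    (heq : A ^ (r * r) - B ^ (r * r) = 2 * (z : ℤ) ^ l) :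
    ∃ z₁ z₂ : ℕ, 1 ≤ z₁ ∧ 1 ≤ z₂ ∧ (A - B) * (r * (z₁ : ℤ) ^ l) = A ^ r - B ^ r ∧
      (A ^ r - B ^ r) * (r * (z₂ : ℤ) ^ l) = A ^ (r * r) - B ^ (r * r) := by
  have hrp : Prime (r : ℤ) := Nat.prime_iff_prime_int.mp hr
  have hr0 : (0 : ℤ) < r := by exact_mod_cast hr.pos
  have hBA : B < A := lt_of_le_of_lt (le_abs_self B) hAB
  have hpos : ∀ n : ℕ, n ≠ 0 → 0 < A ^ n - B ^ n := by
    intro n hn
    have h1 : |B| ^ n < A ^ n := pow_lt_pow_left₀ hAB (abs_nonneg B) hn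
    have h2 : B ^ n ≤ |B| ^ n := by rw [← abs_pow]; exact le_abs_self _
    linarith
  have h2AB : (2 : ℤ) ∣ A - B := (hoA.sub_odd hoB).two_dvd
  obtain ⟨P₁, h1, hc1, hr1, ho1⟩ := one_level hr hr3 hcop hoB h2AB hrd
  have hrd2 : (r : ℤ) ∣ A ^ r - B ^ r := hrd.trans (sub_dvd_pow_sub_pow A B r)
  have h2AB2 : (2 : ℤ) ∣ A ^ r - B ^ r := h2AB.trans (sub_dvd_pow_sub_pow A B r)
  obtain ⟨P₂, h2, hc2, hr2, ho2⟩ := one_level hr hr3 (hcop.pow (m := r) (n := r)) hoB.pow h2AB2 hrd2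
  rw [← pow_mul, ← pow_mul] at h2
  have hD0 : 0 < A - B := by linarith
  have hD1 : 0 < A ^ r - B ^ r := hpos r hr.ne_zero
  have hD2 : 0 < A ^ (r * r) - B ^ (r * r) := hpos _ (Nat.mul_ne_zero hr.ne_zero hr.ne_zero)
  have hP1 : 0 < P₁ := by
    rw [← h1] at hD1
    exact (mul_pos_iff_of_pos_left hr0).mp ((mul_pos_iff_of_pos_left hD0).mp hD1)
  have hP2 : 0 < P₂ := by
    rw [← h2] at hD2
    exact (mul_pos_iff_of_pos_left hr0).mp ((mul_pos_iff_of_pos_left hD1).mp hD2)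
  have hrc2 : IsCoprime (r : ℤ) P₂ := (Prime.coprime_iff_not_dvd hrp).mpr hr2
  have hrc1 : IsCoprime (r : ℤ) P₁ := (Prime.coprime_iff_not_dvd hrp).mpr hr1
  obtain ⟨E, hE⟩ := h2AB
  obtain ⟨E₂, hE₂⟩ := h2AB2
  -- the second level
  have e2 : (E₂ * r) * P₂ = (z : ℤ) ^ l := by
    have : 2 * ((E₂ * r) * P₂) = 2 * (z : ℤ) ^ l := by
      rw [← heq, ← h2, hE₂]; ring
    linarith
  have c2 : IsCoprime (E₂ * r) P₂ := by
    apply IsCoprime.mul_left _ hrc2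
    rw [hE₂] at hc2
    exact hc2.of_mul_left_right
  obtain ⟨z₂, hz₂⟩ := pow_of_coprime c2 hP2 e2
  -- the first level
  have e1 : (E * r * (r * P₂)) * P₁ = (z : ℤ) ^ l := by
    have : 2 * ((E * r * (r * P₂)) * P₁) = 2 * (z : ℤ) ^ l := by
      rw [← heq, ← h2, ← h1, hE]; ring
    linarith
  have c1 : IsCoprime (E * r * (r * P₂)) P₁ := by
    have c3 : IsCoprime E P₁ := by rw [hE] at hc1; exact hc1.of_mul_left_right
    have c4 : IsCoprime P₂ P₁ := by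
      rw [← h1] at hc2
      exact (hc2.of_mul_left_right).of_mul_left_right.symm
    exact (c3.mul_left hrc1).mul_left (hrc1.mul_left c4)
  obtain ⟨z₁, hz₁⟩ := pow_of_coprime c1 hP1 e1
  have hl : ∀ w : ℕ, 0 < (w : ℤ) ^ l → l ≠ 0 → 1 ≤ w := by
    intro w hw hl0
    by_contra h
    have : w = 0 := by omega
    rw [this] at hw
    simp [hl0] at hw
  by_cases hl0 : l = 0
  · refine ⟨1, 1, le_refl _, le_refl _, ?_, ?_⟩
    · rw [hl0] at hz₁ ⊢
      rw [← h1, hz₁]; simp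
    · rw [hl0] at hz₂ ⊢
      rw [← h2, hz₂]; simp
  · exact ⟨z₁, z₂, hl z₁ (hz₁ ▸ hP1) hl0, hl z₂ (hz₂ ▸ hP2) hl0, by rw [← hz₁]; exact h1,
      by rw [← hz₂]; exact h2⟩

lemma abs_log_one_sub {x : ℝ} (hx : |x| ≤ 1 / 2) : |Real.log (1 - x)| ≤ 2 * |x| := by
  have h1 := abs_le.mp hx
  have hpos : 0 < 1 - x := by linarith
  rw [abs_le]
  constructor
  · -- `log (1 - x) ≥ 1 - 1/(1-x) = -x/(1-x)`
    have h2 := Real.one_sub_inv_le_log_of_pos hpos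
    have h3 : 1 - (1 - x)⁻¹ = -x / (1 - x) := by field_simp; ring
    rw [h3] at h2
    have h4 : -(2 * |x|) ≤ -x / (1 - x) := by
      rw [le_div_iff₀ hpos]
      rcases abs_cases x with ⟨h5, h6⟩ | ⟨h5, h6⟩ <;> rw [h5] <;> nlinarith
    linarith
  · have h2 := Real.log_le_sub_one_of_pos hpos
    rcases abs_cases x with ⟨h5, h6⟩ | ⟨h5, h6⟩ <;> rw [h5] <;> linarith

end Pool.Agent.Work.MP_2738db_nt_C.helper16
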