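import Pool.Agent.Work.MP_2738db_nt_C_helper16.RTR

/-!
If `v ^ k - w ^ k = 2 z ^ l`, `w = ± u`, and the odd prime `r` divides `v - w` then
`l log (v / u)` is bounded polynomially in `r`, `log v` and `log l`.
-/

set_option autoImplicit false

namespace Pool.Agent.Work.MP_2738db_nt_C.helper16

open Finset

/-- the analytic part -/
lemma analytic {C₀ : ℝ} (hC₀ : 1 ≤ C₀)
    (hArq : ∀ (X₁ X₂ Y k₀ l : ℕ) (A B : ℝ), 1 ≤ X₁ → 1 ≤ X₂ → 2 ≤ Y → 1 ≤ k₀ → 1 ≤ l →
    Nat.Coprime l k₀ → 1 ≤ A → 1 ≤ B → Real.log X₁ ≤ A → Real.log X₂ ≤ A → Real.log Y ≤ B →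
    (k₀ : ℝ) ≤ A * l → C₀ * B * (1 + Real.log l) ≤ l →
    Real.exp (-(C₀ * (A * B) * (1 + Real.log l) ^ 2)) ≤
      |l * (Real.log X₁ - Real.log X₂) - k₀ * Real.log Y|)
    {r l z₁ z₂ : ℕ} (hr : r.Prime) (hr3 : 3 ≤ r) (hl : l.Prime) (hrl : r ≤ l)
    (hz₁ : 1 ≤ z₁) (hz₂ : 1 ≤ z₂) {A B τ a : ℝ} (hA : 0 < A) (ha : a = Real.log A) (ha0 : 0 ≤ a)
    (hτ : |B| / A ≤ τ) (hτ0 : 0 < τ) (hτ2 : τ ≤ 1 / 2)
    (h1 : (A - B) * (r * (z₁ : ℝ) ^ l) = A ^ r - B ^ r)
    (h2 : (A ^ r - B ^ r) * (r * (z₂ : ℝ) ^ l) = A ^ (r * r) - B ^ (r * r))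
    (hc : C₀ * Real.log r * (1 + Real.log l) ≤ l) :
    -Real.log τ ≤ 3 * Real.log r +
      C₀ * ((1 + r ^ 2 * a / l) * Real.log r) * (1 + Real.log l) ^ 2 := by
  have hr0 : (0 : ℝ) < r := by exact_mod_cast hr.pos
  have hr3' : (3 : ℝ) ≤ r := by exact_mod_cast hr3
  have hl0 : (0 : ℝ) < l := by exact_mod_cast hl.pos
  have hrl' : (r : ℝ) ≤ l := by exact_mod_cast hrl
  set β := B / A with hβ
  have hβτ : |β| ≤ τ := by rw [hβ, abs_div, abs_of_pos hA]; exact hτ
  have hβn : ∀ n : ℕ, n ≠ 0 → |β ^ n| ≤ τ := by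
    intro n hn
    rw [abs_pow]
    calc |β| ^ n ≤ |β| ^ 1 := pow_le_pow_of_le_one (abs_nonneg β) (by linarith) (by omega)
      _ ≤ τ := by rw [pow_one]; exact hβτ
  have hpos : ∀ n : ℕ, n ≠ 0 → 0 < 1 - β ^ n := by
    intro n hn
    have := (abs_le.mp (hβn n hn)).2
    linarith
  have hBA : B = β * A := by rw [hβ]; field_simp
  have hfac : ∀ n : ℕ, A ^ n - B ^ n = A ^ n * (1 - β ^ n) := by
    intro n; rw [hBA, mul_pow]; ring
  have hlogn : ∀ n : ℕ, n ≠ 0 → Real.log (A ^ n - B ^ n) = n * a + Real.log (1 - β ^ n) := by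
    intro n hn
    rw [hfac, Real.log_mul (pow_pos hA n).ne' (hpos n hn).ne', Real.log_pow, ha]
  have hz1 : (0 : ℝ) < z₁ := by exact_mod_cast hz₁
  have hz2 : (0 : ℝ) < z₂ := by exact_mod_cast hz₂
  have hAB1 : 0 < A - B := by
    have := hpos 1 one_ne_zero
    have h3 := hfac 1
    rw [pow_one, pow_one] at h3
    rw [h3]; positivity
  have hABr : 0 < A ^ r - B ^ r := by rw [hfac]; exact mul_pos (pow_pos hA r) (hpos r hr.ne_zero)
  set l0 := Real.log (1 - β ^ 1) with hl0'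
  set l1 := Real.log (1 - β ^ r) with hl1'
  set l2 := Real.log (1 - β ^ (r * r)) with hl2'
  have hrr : r * r ≠ 0 := Nat.mul_ne_zero hr.ne_zero hr.ne_zero
  have bl : ∀ n : ℕ, n ≠ 0 → |Real.log (1 - β ^ n)| ≤ 2 * τ := by
    intro n hn
    exact (abs_log_one_sub ((hβn n hn).trans hτ2)).trans (by linarith [hβn n hn])
  have b0 := bl 1 one_ne_zero
  have b1 := bl r hr.ne_zero
  have b2 := bl (r * r) hrr
  rw [← hl0'] at b0
  rw [← hl1'] at b1
  rw [← hl2'] at b2
  have L1 : (a + l0) + (Real.log r + l * Real.log z₁) = r * a + l1 := by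
    have h3 := congrArg Real.log h1
    rw [hlogn r hr.ne_zero, Real.log_mul hAB1.ne' (by positivity),
      Real.log_mul hr0.ne' (by positivity), Real.log_pow] at h3
    have h4 := hlogn 1 one_ne_zero
    rw [pow_one, pow_one B] at h4
    rw [h4] at h3
    push_cast at h3
    rw [one_mul] at h3
    exact h3
  have L2 : (r * a + l1) + (Real.log r + l * Real.log z₂) = r * r * a + l2 := by
    have h3 := congrArg Real.log h2
    rw [hlogn (r * r) hrr, Real.log_mul hABr.ne' (by positivity),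
      Real.log_mul hr0.ne' (by positivity), Real.log_pow, hlogn r hr.ne_zero] at h3
    push_cast at h3
    exact h3
  have a0 := abs_le.mp b0
  have a1 := abs_le.mp b1
  have a2 := abs_le.mp b2
  have hlogr : 1 ≤ Real.log r := by
    rw [Real.le_log_iff_exp_le hr0]
    have := Real.exp_one_lt_d9
    linarith
  have hr1c : ((r - 1 : ℕ) : ℝ) = r - 1 := by
    have : 1 ≤ r := by omega
    push_cast [this]; ring
  -- the linear form
  have hlam : l * (Real.log z₂ - Real.log ((z₁ ^ r : ℕ) : ℝ)) - ((r - 1 : ℕ) : ℝ) * Real.log r =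
      l2 - (r + 1) * l1 + r * l0 := by
    rw [hr1c]
    push_cast
    rw [Real.log_pow]
    have e1 : l * Real.log z₁ = r * a + l1 - (a + l0) - Real.log r := by linarith
    have e2 : l * Real.log z₂ = r * r * a + l2 - (r * a + l1) - Real.log r := by linarith
    have e3 : l * (Real.log z₂ - r * Real.log z₁) = l * Real.log z₂ - r * (l * Real.log z₁) := by ring
    rw [e3, e1, e2]; ring
  have hlamb : |l2 - (r + 1) * l1 + r * l0| ≤ 4 * (r + 1) * τ := by
    rw [abs_le]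
    constructor <;> nlinarith
  set A' : ℝ := 1 + r ^ 2 * a / l with hA'
  have hA'1 : 1 ≤ A' := by
    have : 0 ≤ r ^ 2 * a / l := by positivity
    linarith
  have hA'l : A' * l = l + r ^ 2 * a := by rw [hA']; field_simp
  have hX1 : Real.log z₂ ≤ A' := by
    have h3 : l * Real.log z₂ ≤ l * A' := by
      rw [mul_comm (l : ℝ) A', hA'l]
      nlinarith
    exact le_of_mul_le_mul_left h3 hl0
  have hX2 : Real.log ((z₁ ^ r : ℕ) : ℝ) ≤ A' := by
    push_cast
    rw [Real.log_pow]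
    have h3 : l * (r * Real.log z₁) ≤ l * A' := by
      rw [mul_comm (l : ℝ) A', hA'l]
      have e1 : l * Real.log z₁ = r * a + l1 - (a + l0) - Real.log r := by linarith
      have e2 : l * (r * Real.log z₁) = r * (l * Real.log z₁) := by ring
      rw [e2, e1]
      nlinarith
    exact le_of_mul_le_mul_left h3 hl0
  have hcop : Nat.Coprime l (r - 1) := by
    rw [Nat.Prime.coprime_iff_not_dvd hl]
    intro h
    have := Nat.le_of_dvd (by omega) h
    omega
  have key := hArq z₂ (z₁ ^ r) r (r - 1) l A' (Real.log r) hz₂ (Nat.one_le_pow _ _ hz₁)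
    (by omega) (by omega) hl.one_le hcop hA'1 hlogr hX1 hX2 le_rfl (by
      rw [hr1c]
      nlinarith) hc
  rw [hlam] at key
  have key2 := key.trans hlamb
  have key3 := Real.log_le_log (Real.exp_pos _) key2
  rw [Real.log_exp, Real.log_mul (by positivity) hτ0.ne'] at key3
  have h43 : Real.log (4 * (r + 1)) ≤ 3 * Real.log r := by
    have : 3 * Real.log (r : ℝ) = Real.log ((r : ℝ) ^ 3) := by rw [Real.log_pow]; norm_num
    rw [this]
    apply Real.log_le_log (by positivity)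
    nlinarith [mul_self_nonneg ((r : ℝ) - 3), mul_pos hr0 hr0]
  linarith

end Pool.Agent.Work.MP_2738db_nt_C.helper16
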