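import Pool.Agent.Work.MP_2738db_nt_C_helper16.RTR2

/-!
The bound for `l` when an odd prime `r` divides `v - w`, `w = ± u`.
-/

set_option autoImplicit false

namespace Pool.Agent.Work.MP_2738db_nt_C.helper16

open Finset
open Pool.Agent.Work.MP_2738db_nt_Y (Stmt_Arq)

/-- **RTR**: if `v ^ k - (± u) ^ k = 2 z ^ l` and an odd prime `r` divides `v ∓ u`, then `l` is
bounded. -/
def Stmt_Rtr : Prop :=
  ∃ C : ℝ, 1 ≤ C ∧ ∀ (r v u k l z : ℕ) (e : ℤ), r.Prime → 3 ≤ r → l.Prime → 1 ≤ u → u < v →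
    Nat.Coprime u v → Odd u → Odd v → (e = 1 ∨ e = -1) → 1 ≤ k → (r : ℤ) ∣ (v : ℤ) - e * u →
    (v : ℤ) ^ k - (e * u) ^ k = 2 * (z : ℤ) ^ l →
    (l : ℝ) * (Real.log v - Real.log u) ≤
      C * r ^ 2 * Real.log r * Real.log (2 * v) ^ 2 * (1 + Real.log l) ^ 2

/-- the exponent `k` is divisible by `r ^ 2` and large -/
lemma exponent {r v k l z : ℕ} {w : ℤ} (hr : r.Prime) (hr3 : 3 ≤ r) (hl : l.Prime) (hv : 1 ≤ v)
    (hk : 1 ≤ k) (hw : |w| < v) (hcop : IsCoprime (v : ℤ) w)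
    (hrd : (r : ℤ) ∣ (v : ℤ) - w) (heq : (v : ℤ) ^ k - w ^ k = 2 * (z : ℤ) ^ l)
    (hbig : 4 * (1 + Real.log (2 * v)) ≤ l) :
    ∃ k₂ : ℕ, 1 ≤ k₂ ∧ k = k₂ * (r * r) ∧ (l : ℝ) ≤ k₂ := by
  have hrp : Prime (r : ℤ) := Nat.prime_iff_prime_int.mp hr
  have hrodd : Odd r := hr.odd_of_ne_two (by omega)
  have hr0 : (0 : ℝ) < r := by exact_mod_cast hr.pos
  have hr3' : (3 : ℝ) ≤ r := by exact_mod_cast hr3
  have hv0 : (1 : ℝ) ≤ v := by exact_mod_cast hv
  have hlogr : 1 ≤ Real.log r := by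
    rw [Real.le_log_iff_exp_le hr0]
    have := Real.exp_one_lt_d9
    linarith
  have hL : 0 ≤ Real.log (2 * v) := Real.log_nonneg (by linarith)
  have hrv : ¬ (r : ℤ) ∣ (v : ℤ) := by
    intro h
    have h2 : (r : ℤ) ∣ w := by
      have := dvd_sub h hrd
      rwa [sub_sub_cancel] at this
    exact hrp.not_isUnit (hcop.isUnit_of_dvd' h h2)
  have hem := Int.emultiplicity_pow_sub_pow hr hrodd hrd hrv k
  have hrz : (r : ℤ) ∣ (z : ℤ) := by
    have h1 : (r : ℤ) ∣ 2 * (z : ℤ) ^ l := by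
      rw [← heq]; exact hrd.trans (sub_dvd_pow_sub_pow _ _ k)
    rcases hrp.dvd_or_dvd h1 with h2 | h2
    · exfalso
      have h3 : r ∣ 2 := by exact_mod_cast h2
      have := Nat.le_of_dvd (by norm_num) h3
      omega
    · exact hrp.dvd_of_dvd_pow h2
  have hrl : (r : ℤ) ^ l ∣ ((v : ℤ) - w) * k := by
    apply pow_dvd_of_le_emultiplicity
    rw [emultiplicity_mul hrp, Int.natCast_emultiplicity, ← hem]
    apply le_emultiplicity_of_pow_dvd
    rw [heq]
    exact Dvd.dvd.mul_left (pow_dvd_pow_of_dvd hrz l) _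
  have hD0 : 0 < (v : ℤ) - w := by
    have := (abs_lt.mp hw).2
    linarith
  have hD1 : (v : ℤ) - w ≤ 2 * v := by
    have := (abs_lt.mp hw).1
    linarith
  obtain ⟨j, k', hk', hkj⟩ := Nat.exists_eq_pow_mul_and_not_dvd (show k ≠ 0 by omega) r hr.ne_one
  -- `r ^ l ≤ 2 v r ^ j`
  have h1 : (r : ℤ) ^ l ∣ ((v : ℤ) - w) * r ^ j := by
    have hc : IsCoprime ((r : ℤ) ^ l) (k' : ℤ) := by
      apply IsCoprime.pow_left
      rw [Prime.coprime_iff_not_dvd hrp]
      intro h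
      exact hk' (Int.natCast_dvd_natCast.mp h)
    have h2 : (r : ℤ) ^ l ∣ (((v : ℤ) - w) * r ^ j) * k' := by
      have : ((v : ℤ) - w) * k = (((v : ℤ) - w) * r ^ j) * k' := by rw [hkj]; push_cast; ring
      rw [← this]; exact hrl
    exact hc.dvd_of_dvd_mul_right h2
  have h2 : (r : ℝ) ^ l ≤ 2 * v * r ^ j := by
    have h3 : (r : ℤ) ^ l ≤ ((v : ℤ) - w) * r ^ j := Int.le_of_dvd (by positivity) h1
    have h4 : ((v : ℤ) - w) * r ^ j ≤ 2 * v * r ^ j :=
      mul_le_mul_of_nonneg_right hD1 (by positivity)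
    exact_mod_cast h3.trans h4
  have h3 : l * Real.log r ≤ Real.log (2 * v) + j * Real.log r := by
    have := Real.log_le_log (by positivity) h2
    rw [Real.log_pow, Real.log_mul (by positivity) (by positivity), Real.log_pow] at this
    exact this
  have hjl : (l : ℝ) - Real.log (2 * v) ≤ j := by
    by_contra hcon
    rw [not_le] at hcon
    have h4 : ((l : ℝ) - j) * Real.log r ≤ Real.log (2 * v) := by linarith
    have h5 : (l : ℝ) - j ≤ ((l : ℝ) - j) * Real.log r := by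
      have : 0 ≤ (l : ℝ) - j := by linarith
      nlinarith
    linarith
  have hj3 : (3 : ℝ) ≤ j := by linarith
  have hj2 : 2 ≤ j := by
    have : (2 : ℝ) ≤ j := by linarith
    exact_mod_cast this
  have hk'1 : 1 ≤ k' := by
    rcases Nat.eq_zero_or_pos k' with h | h
    · rw [h] at hkj; simp at hkj; omega
    · exact h
  refine ⟨r ^ (j - 2) * k', Nat.mul_pos (Nat.pow_pos hr.pos) hk'1, ?_, ?_⟩
  · rw [hkj]
    obtain ⟨i, rfl⟩ := Nat.exists_eq_add_of_le hj2
    rw [Nat.add_sub_cancel_left, pow_add]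
    ring
  · have h4 : Real.exp ((j : ℝ) - 2) ≤ ((r ^ (j - 2) * k' : ℕ) : ℝ) := by
      have h5 : Real.exp ((j : ℝ) - 2) ≤ (r : ℝ) ^ (j - 2) := by
        have h6 : ((j - 2 : ℕ) : ℝ) = (j : ℝ) - 2 := by push_cast [hj2]; ring
        rw [← h6, ← Real.rpow_natCast, ← Real.exp_log (Real.rpow_pos_of_pos hr0 _),
          Real.log_rpow hr0]
        apply Real.exp_le_exp.mpr
        have : 0 ≤ ((j - 2 : ℕ) : ℝ) := Nat.cast_nonneg _
        nlinarith
      push_cast
      have h7 : (1 : ℝ) ≤ k' := by exact_mod_cast hk'1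
      have h8 : 0 ≤ (r : ℝ) ^ (j - 2) := by positivity
      nlinarith
    have h5 : (l : ℝ) / 2 ≤ (j : ℝ) - 2 := by linarith
    have h6 : (l : ℝ) ≤ Real.exp ((l : ℝ) / 2) := by
      have := Real.quadratic_le_exp_of_nonneg (show (0 : ℝ) ≤ (l : ℝ) / 2 by positivity)
      nlinarith [mul_self_nonneg ((l : ℝ) - 2)]
    exact h6.trans ((Real.exp_le_exp.mpr h5).trans h4)

theorem rtr (hArq : Stmt_Arq) : Stmt_Rtr := by
  obtain ⟨C₀, hC₀, hArq⟩ := hArq
  refine ⟨8 + 2 * C₀, by linarith, ?_⟩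
  intro r v u k l z e hr hr3 hl hu huv hcop hou hov he hk hrd heq
  have hr0 : (0 : ℝ) < r := by exact_mod_cast hr.pos
  have hr3' : (3 : ℝ) ≤ r := by exact_mod_cast hr3
  have hl0 : (0 : ℝ) < l := by exact_mod_cast hl.pos
  have hl1 : (1 : ℝ) ≤ l := by exact_mod_cast hl.one_le
  have hlogl : 0 ≤ Real.log l := Real.log_nonneg hl1
  have hu0 : (1 : ℝ) ≤ u := by exact_mod_cast hu
  have huv' : (u : ℝ) < v := by exact_mod_cast huv
  have hv3 : 3 ≤ v := by
    obtain ⟨a, ha⟩ := hou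
    obtain ⟨b, hb⟩ := hov
    omega
  have hv3' : (3 : ℝ) ≤ v := by exact_mod_cast hv3
  have hlogr : 1 ≤ Real.log r := by
    rw [Real.le_log_iff_exp_le hr0]
    have := Real.exp_one_lt_d9
    linarith
  set L := Real.log (2 * v) with hLdef
  have hL1 : 1 ≤ L := by
    rw [hLdef, Real.le_log_iff_exp_le (by linarith)]
    have := Real.exp_one_lt_d9
    linarith
  have hlv : Real.log v ≤ L := Real.log_le_log (by linarith) (by linarith)
  have hlu : 0 ≤ Real.log u := Real.log_nonneg hu0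
  set S := Real.log v - Real.log u with hS
  have hS0 : 0 < S := by
    have := Real.log_lt_log (by linarith) huv'
    linarith
  have hSL : S ≤ L := by linarith
  set Λ := (1 + Real.log l) ^ 2 with hΛ
  have hΛ1 : 1 ≤ Λ := by rw [hΛ]; nlinarith
  -- trivial comparison
  have hr2 : (9 : ℝ) ≤ r ^ 2 := by nlinarith
  have hRHS : ∀ {X c : ℝ}, 0 ≤ c → c ≤ 8 + 2 * C₀ → X ≤ c * (r ^ 2 * Real.log r * L ^ 2 * Λ) →
      X ≤ (8 + 2 * C₀) * r ^ 2 * Real.log r * L ^ 2 * Λ := by
    intro X c hc hc2 hX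
    have h0 : 0 ≤ r ^ 2 * Real.log r * L ^ 2 * Λ := by positivity
    have := mul_le_mul_of_nonneg_right hc2 h0
    calc X ≤ c * (r ^ 2 * Real.log r * L ^ 2 * Λ) := hX
      _ ≤ (8 + 2 * C₀) * (r ^ 2 * Real.log r * L ^ 2 * Λ) := this
      _ = _ := by ring
  have hrL : r * Real.log r * L ≤ r ^ 2 * Real.log r * L ^ 2 * Λ := by
    have e1 : r * Real.log r * L ≤ r ^ 2 * Real.log r * L ^ 2 := by
      have h1 : (r : ℝ) ≤ r ^ 2 := by nlinarith
      have h2 : L ≤ L ^ 2 := by nlinarith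
      exact mul_le_mul (mul_le_mul_of_nonneg_right h1 (by linarith)) h2 (by linarith) (by positivity)
    have e2 : 0 ≤ r ^ 2 * Real.log r * L ^ 2 := by positivity
    nlinarith
  have hLL : L ^ 2 ≤ r ^ 2 * Real.log r * L ^ 2 * Λ := by
    have e1 : 1 ≤ r ^ 2 * Real.log r := by nlinarith
    have e2 : 1 ≤ r ^ 2 * Real.log r * Λ := by nlinarith
    have e3 : 0 ≤ L ^ 2 := by positivity
    nlinarith
  by_cases hbig : 4 * (1 + L) ≤ l
  swap
  · rw [not_le] at hbig
    apply hRHS (c := 8) (by norm_num) (by linarith)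
    have h1 : l * S ≤ 4 * (1 + L) * L := by
      exact mul_le_mul hbig.le hSL hS0.le (by linarith)
    nlinarith
  by_cases hrl : r ≤ l
  swap
  · rw [not_le] at hrl
    apply hRHS (c := 1) (by norm_num) (by linarith)
    have h0 : (l : ℝ) ≤ r := by exact_mod_cast hrl.le
    have h1 : l * S ≤ r * L := mul_le_mul h0 hSL hS0.le hr0.le
    have h2 : r * L ≤ r * Real.log r * L := by nlinarith [mul_pos hr0 (show 0 < L by linarith)]
    linarith
  by_cases hc : C₀ * Real.log r * (1 + Real.log l) ≤ l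
  swap
  · rw [not_le] at hc
    apply hRHS (c := C₀) (by linarith) (by linarith)
    have h1 : l * S ≤ C₀ * Real.log r * (1 + Real.log l) * L :=
      mul_le_mul hc.le hSL hS0.le (by positivity)
    have h2 : (1 + Real.log l) ≤ Λ := by rw [hΛ]; nlinarith
    have h3 : Real.log r * (1 + Real.log l) * L ≤ r ^ 2 * Real.log r * L ^ 2 * Λ := by
      have e1 : Real.log r * (1 + Real.log l) * L ≤ Real.log r * Λ * L ^ 2 := by
        have : L ≤ L ^ 2 := by nlinarith
        exact mul_le_mul (mul_le_mul_of_nonneg_left h2 (by linarith)) this (by linarith)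
          (by positivity)
      have e2 : 0 ≤ Real.log r * Λ * L ^ 2 := by positivity
      nlinarith
    have h4 : C₀ * Real.log r * (1 + Real.log l) * L ≤ C₀ * (r ^ 2 * Real.log r * L ^ 2 * Λ) := by
      have := mul_le_mul_of_nonneg_left h3 (show 0 ≤ C₀ by linarith)
      linarith
    linarith
  -- the main case
  set w : ℤ := e * u with hw
  have hwabs : |w| = u := by
    rcases he with h | h <;> rw [hw, h] <;> simp
  have hwv : |w| < v := by rw [hwabs]; exact_mod_cast huv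
  have hcopw : IsCoprime (v : ℤ) w := by
    have h1 : IsCoprime (v : ℤ) (u : ℤ) := (Nat.isCoprime_iff_coprime.mpr hcop).symm
    rcases he with h | h
    · rw [hw, h, one_mul]; exact h1
    · rw [hw, h, neg_one_mul]; exact h1.neg_right
  have how : Odd w := by
    have h1 : Odd (u : ℤ) := by exact_mod_cast hou
    rcases he with h | h
    · rw [hw, h, one_mul]; exact h1
    · rw [hw, h, neg_one_mul]; exact h1.neg
  have hov' : Odd (v : ℤ) := by exact_mod_cast hov
  obtain ⟨k₂, hk2, hkk, hlk⟩ := exponent hr hr3 hl (by omega) hk hwv hcopw hrd heq hbig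
  have hk20 : (0 : ℝ) < k₂ := by exact_mod_cast hk2
  set A : ℤ := (v : ℤ) ^ k₂ with hA
  set B : ℤ := w ^ k₂ with hB
  have hA0 : 0 < A := by rw [hA]; positivity
  have hBA : |B| < A := by
    rw [hB, hA, abs_pow]
    exact pow_lt_pow_left₀ hwv (abs_nonneg _) (by omega)
  have hrdAB : (r : ℤ) ∣ A - B := hrd.trans (sub_dvd_pow_sub_pow _ _ k₂)
  have heqAB : A ^ (r * r) - B ^ (r * r) = 2 * (z : ℤ) ^ l := by
    rw [hA, hB, ← pow_mul, ← pow_mul, ← hkk]; exact heq
  obtain ⟨z₁, z₂, hz1, hz2, e1, e2⟩ := two_levels hr hr3 hA0 hBA hcopw.pow hov'.pow how.pow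
    hrdAB heqAB
  have hAr : (0 : ℝ) < (A : ℝ) := by exact_mod_cast hA0
  have hlogA : Real.log (A : ℝ) = k₂ * Real.log v := by
    rw [hA]; push_cast; rw [Real.log_pow]
  have hBabs : |(B : ℝ)| / (A : ℝ) = Real.exp (-(k₂ * S)) := by
    have h1 : |(B : ℝ)| = (u : ℝ) ^ k₂ := by
      rw [hB]; push_cast; rw [abs_pow]
      congr 1
      have : |(w : ℝ)| = ((|w| : ℤ) : ℝ) := by push_cast; rfl
      rw [this, hwabs]; push_cast; rfl
    have h2 : (A : ℝ) = (v : ℝ) ^ k₂ := by rw [hA]; push_cast; rfl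
    rw [h1, h2, hS]
    have hv0 : (0 : ℝ) < v := by linarith
    have hu0' : (0 : ℝ) < u := by linarith
    have h3 : -(k₂ * (Real.log v - Real.log u)) = Real.log ((u : ℝ) ^ k₂) - Real.log ((v : ℝ) ^ k₂) := by
      rw [Real.log_pow, Real.log_pow]; ring
    rw [h3, ← Real.log_div (by positivity) (by positivity), Real.exp_log (by positivity)]
  by_cases hτ : Real.exp (-(k₂ * S)) ≤ 1 / 2
  swap
  · rw [not_le] at hτ
    apply hRHS (c := 1) (by norm_num) (by linarith)
    have h1 : k₂ * S ≤ 1 := by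
      by_contra hcon
      rw [not_le] at hcon
      have h2 : Real.exp (-(k₂ * S)) ≤ Real.exp (-1) := Real.exp_le_exp.mpr (by linarith)
      have h3 : Real.exp (-1) ≤ 1 / 2 := by
        rw [Real.exp_neg, inv_le_comm₀ (Real.exp_pos _) (by norm_num)]
        have := Real.add_one_le_exp (1 : ℝ)
        norm_num at this ⊢
        linarith
      linarith
    have h2 : l * S ≤ k₂ * S := mul_le_mul_of_nonneg_right hlk hS0.le
    have h3 : (1 : ℝ) ≤ L ^ 2 := by nlinarith
    linarith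
  have han := analytic hC₀ hArq hr hr3 hl hrl hz1 hz2 (A := (A : ℝ)) (B := (B : ℝ))
    (τ := Real.exp (-(k₂ * S))) (a := k₂ * Real.log v) hAr hlogA.symm
    (mul_nonneg hk20.le (by linarith)) hBabs.le (Real.exp_pos _) hτ (by exact_mod_cast e1)
    (by exact_mod_cast e2) hc
  rw [Real.log_exp, neg_neg] at han
  -- multiply by `l / k₂`
  apply hRHS (c := 3 + 2 * C₀) (by linarith) (by linarith)
  have h1 : l * (k₂ * S) ≤ l * (3 * Real.log r +
      C₀ * ((1 + r ^ 2 * (k₂ * Real.log v) / l) * Real.log r) * Λ) :=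
    mul_le_mul_of_nonneg_left han hl0.le
  have h2 : l * (3 * Real.log r + C₀ * ((1 + r ^ 2 * (k₂ * Real.log v) / l) * Real.log r) * Λ) =
      l * (3 * Real.log r + C₀ * Real.log r * Λ) + k₂ * (C₀ * r ^ 2 * Real.log v * Real.log r * Λ) := by
    field_simp
    ring
  have h3 : l * (3 * Real.log r + C₀ * Real.log r * Λ) ≤
      k₂ * (3 * Real.log r + C₀ * Real.log r * Λ) :=
    mul_le_mul_of_nonneg_right hlk (by positivity)
  have h4 : k₂ * (l * S) ≤ k₂ * ((3 * Real.log r + C₀ * Real.log r * Λ) +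
      C₀ * r ^ 2 * Real.log v * Real.log r * Λ) := by
    have : k₂ * (l * S) = l * (k₂ * S) := by ring
    rw [this]
    rw [h2] at h1
    nlinarith
  have h5 := le_of_mul_le_mul_left h4 hk20
  have hlv0 : 0 ≤ Real.log v := Real.log_nonneg (by linarith)
  have m1 : Real.log r ≤ r ^ 2 * Real.log r * L ^ 2 * Λ := by
    have e1 : 1 ≤ L ^ 2 * Λ := by nlinarith
    have e2 : 1 ≤ r ^ 2 * (L ^ 2 * Λ) := by nlinarith
    have e3 : 0 ≤ Real.log r := by linarith
    nlinarith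
  have m2 : Real.log r * Λ ≤ r ^ 2 * Real.log r * L ^ 2 * Λ := by
    have e1 : 1 ≤ L ^ 2 := by nlinarith
    have e2 : 1 ≤ r ^ 2 * L ^ 2 := by nlinarith
    have e3 : 0 ≤ Real.log r * Λ := by positivity
    nlinarith
  have m3 : r ^ 2 * Real.log v * Real.log r * Λ ≤ r ^ 2 * Real.log r * L ^ 2 * Λ := by
    have e1 : Real.log v ≤ L ^ 2 := by nlinarith
    have e2 : 0 ≤ r ^ 2 * Real.log r * Λ := by positivity
    nlinarith
  have hC0 : 0 ≤ C₀ := by linarith
  have n2 := mul_le_mul_of_nonneg_left m2 hC0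
  have n3 := mul_le_mul_of_nonneg_left m3 hC0
  nlinarith

end Pool.Agent.Work.MP_2738db_nt_C.helper16
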